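import Pool.Agent.Q120.EI.Stm
import Pool.Agent.Q93.EHC.AS

/-!
# Project EI: job ASM (copy of `Q93.EHC.AS` by helper93 with a general hypothesis)
-/

set_option autoImplicit false

namespace Pool.Agent.Q120.EI

open Finset Filter MeasureTheory Pool.Agent.Q93.EHC
open scoped Topology

section

variable {Ω : Type*} [MeasurableSpace Ω] (μ : Measure Ω) [IsProbabilityMeasure μ]
  {c : ∀ k : ℕ, Ω → (ZMod (k + 1))ˣ}

/-- **the bad events have summable probabilities** -/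
theorem badI_le' (β : ℝ) (hβ : 0 ≤ β) (U V B : ℕ) (C : ℝ) (hC0 : 0 < C)
    (hC : ∀ N : ℕ, 3 ≤ N → ∀ n : ℕ, (n : ℝ) ^ (1 + β) * Real.log N ^ B ≤ N → ∀ t : ℝ, 0 < t →
      μ.real {ω | t ≤ SN c N n ω} ≤ C * (N / Real.log N ^ (U + 1 + (V + 2))) / t) :
    ∃ C : ℝ, 0 < C ∧ ∀ i : ℕ, 2 ≤ i → μ.real (badI c β B U V i) ≤ C * (1 / (i : ℝ) ^ 2) := by
  refine ⟨C * 2 ^ (V + 2) * 4, by positivity, fun i hi => ?_⟩
  have hi0 : (0 : ℝ) < i := by exact_mod_cast (by omega : 0 < i)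
  have hi1 : (1 : ℝ) ≤ i := by exact_mod_cast (by omega : 1 ≤ i)
  have one : ∀ m, μ.real (bad1 c β B U (grid V i m)) ≤ C * (2 ^ (V + 2) / (i : ℝ) ^ (V + 2)) := by
    intro m
    obtain ⟨N, hN⟩ : ∃ N, N = grid V i m := ⟨_, rfl⟩
    rw [← hN]
    have h4 : 4 ≤ N := by
      rw [hN]
      refine le_trans ?_ (grid_ge V i m)
      calc 4 = 2 ^ 2 := rfl
        _ ≤ 2 ^ i := Nat.pow_le_pow_right (by norm_num) hi
    have hN0 : (0:ℝ) < N := by exact_mod_cast (by omega : 0 < N)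
    have hl1 := Pool.Agent.TH926.EH.log_ge_one (N := N) (by omega)
    have hl : 0 < Real.log N := by linarith
    have hlg : (i : ℝ) / 2 ≤ Real.log N := by rw [hN]; exact log_grid V i m
    have h5 := hC N (by omega) (nn β B N) (nn_spec β hβ B N) (N / Real.log N ^ (U + 1))
      (by positivity)
    refine h5.trans ?_
    have e : C * (N / Real.log N ^ (U + 1 + (V + 2))) / (N / Real.log N ^ (U + 1)) =
        C * (1 / Real.log N ^ (V + 2)) := by
      rw [pow_add (Real.log N) (U + 1)]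
      field_simp
    rw [e]
    apply mul_le_mul_of_nonneg_left _ hC0.le
    rw [← div_pow]
    have h6 : 1 / Real.log N ^ (V + 2) = (1 / Real.log N) ^ (V + 2) := by rw [div_pow, one_pow]
    rw [h6]
    apply pow_le_pow_left₀ (by positivity)
    rw [div_le_div_iff₀ hl hi0]
    linarith
  unfold badI
  refine (measureReal_biUnion_finset_le _ _).trans ?_
  calc ∑ m ∈ range (3 * i ^ V + 1), μ.real (bad1 c β B U (grid V i m)) ≤
      ∑ _m ∈ range (3 * i ^ V + 1), C * (2 ^ (V + 2) / (i : ℝ) ^ (V + 2)) :=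
        sum_le_sum fun m _ => one m
    _ = (3 * (i : ℝ) ^ V + 1) * (C * (2 ^ (V + 2) / (i : ℝ) ^ (V + 2))) := by
        rw [sum_const, card_range, nsmul_eq_mul]
        push_cast
        ring
    _ ≤ (4 * (i : ℝ) ^ V) * (C * (2 ^ (V + 2) / (i : ℝ) ^ (V + 2))) := by
        apply mul_le_mul_of_nonneg_right _ (by positivity)
        have : 1 ≤ (i : ℝ) ^ V := one_le_pow₀ hi1
        linarith
    _ = _ := by
        rw [pow_add (i : ℝ) V 2]
        field_simp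
        try ring

/-- **almost sure bounds** (copy of `Q93.EHC.as` with a general hypothesis) -/
theorem as' (β : ℝ) (hβ : 0 ≤ β) (hE : ∀ U : ℕ, ∃ (B : ℕ) (C : ℝ), 0 < C ∧ ∀ N : ℕ, 3 ≤ N → ∀ n : ℕ,
      (n : ℝ) ^ (1 + β) * Real.log N ^ B ≤ N → ∀ t : ℝ, 0 < t →
      μ.real {ω | t ≤ SN c N n ω} ≤ C * (N / Real.log N ^ U) / t) (U : ℕ) :
    ∃ B : ℕ, ∀ᵐ ω ∂μ, ∃ x₀ : ℕ, ∀ x : ℕ, x₀ ≤ x → ∀ n : ℕ,
      (n : ℝ) ^ (1 + β) * Real.log x ^ B ≤ x → SN c x n ω ≤ x / Real.log x ^ U := by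
  obtain ⟨V, hV⟩ : ∃ V, V = U + 3 := ⟨_, rfl⟩
  obtain ⟨B₀, C', hC0', hC₀⟩ := hE (U + 1 + (V + 2))
  obtain ⟨B, hB⟩ : ∃ B, B = B₀ + U := ⟨_, rfl⟩
  have hC' : ∀ N : ℕ, 3 ≤ N → ∀ n : ℕ, (n : ℝ) ^ (1 + β) * Real.log N ^ B ≤ N → ∀ t : ℝ, 0 < t →
      μ.real {ω | t ≤ SN c N n ω} ≤ C' * (N / Real.log N ^ (U + 1 + (V + 2))) / t := by
    intro N hN n hn t ht
    refine hC₀ N hN n (le_trans ?_ hn) t ht
    have h1 := Pool.Agent.TH926.EH.log_ge_one hN
    apply mul_le_mul_of_nonneg_left _ (by positivity)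
    exact pow_le_pow_right₀ h1 (by omega)
  obtain ⟨C, hC0, hC⟩ := badI_le' μ β hβ U V B C' hC0' hC'
  refine ⟨B + 1, ?_⟩
  have hsum : ∑' i, μ (badI c β B U V (i + 2)) ≠ ⊤ := by
    have h1 : Summable fun i : ℕ => C * (1 / ((i + 2 : ℕ) : ℝ) ^ 2) := by
      apply Summable.mul_left
      exact (summable_nat_add_iff 2).2 (Real.summable_one_div_nat_pow.2 (by norm_num))
    have h2 := h1.tsum_ofReal_ne_top
    refine ne_top_of_le_ne_top h2 ?_
    apply ENNReal.tsum_le_tsum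
    intro i
    rw [← ofReal_measureReal]
    exact ENNReal.ofReal_le_ofReal (hC (i + 2) (by omega))
  have hBC := ae_eventually_notMem hsum
  filter_upwards [hBC] with ω hω
  obtain ⟨i0, hi0⟩ := eventually_atTop.1 hω
  -- thresholds
  have ev1 : ∀ᶠ i : ℕ in atTop, 2 * i ^ V ≤ 2 ^ i := by
    have h1 := tendsto_pow_const_div_const_pow_of_one_lt V (r := (2:ℝ)) (by norm_num)
    have h2 := h1.eventually (gt_mem_nhds (show (0:ℝ) < 1 / 2 by norm_num))
    filter_upwards [h2] with i hi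
    rw [div_lt_iff₀ (by positivity)] at hi
    have h3 : (2 : ℝ) * (i : ℝ) ^ V ≤ 2 ^ i := by linarith
    exact_mod_cast h3
  obtain ⟨i1, hi1⟩ := eventually_atTop.1 ev1
  obtain ⟨T, hT⟩ := exists_nat_ge ((36 : ℝ) * 2 ^ U + 2 ^ B + 16)
  obtain ⟨I, hI⟩ : ∃ I, I = i0 + i1 + 2 * T + 4 := ⟨_, rfl⟩
  refine ⟨2 ^ I, fun x hx n hn => ?_⟩
  have hxpos : 0 < x := lt_of_lt_of_le (by positivity) hx
  obtain ⟨i, hi⟩ : ∃ i, i = Nat.log 2 x := ⟨_, rfl⟩
  have hIi : I ≤ i := by rw [hi]; exact Nat.le_log_of_pow_le (by norm_num) hx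
  have hlow : 2 ^ i ≤ x := by rw [hi]; exact Nat.pow_log_le_self 2 hxpos.ne'
  have hupp : x < 2 ^ (i + 1) := by rw [hi]; exact Nat.lt_pow_succ_log_self (by norm_num) x
  have hω' : ω ∉ badI c β B U V i := by
    have h := hi0 (i - 2) (by omega)
    rwa [Nat.sub_add_cancel (by omega)] at h
  have hb := hi1 i (by omega)
  -- logarithms
  have hx0 : (0:ℝ) < x := by exact_mod_cast hxpos
  have hi0' : (0:ℝ) < i := by exact_mod_cast (by omega : 0 < i)
  have hlog2 := Real.log_two_gt_d9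
  have hlog2' := Real.log_two_lt_d9
  have hL1 : (i : ℝ) / 2 ≤ Real.log x := by
    have h1 : Real.log ((2:ℝ) ^ i) ≤ Real.log x := Real.log_le_log (by positivity) (by exact_mod_cast hlow)
    rw [Real.log_pow] at h1
    nlinarith
  have hL2 : Real.log x ≤ 2 * i := by
    have h1 : Real.log x ≤ Real.log ((2:ℝ) ^ (i + 1)) :=
      Real.log_le_log hx0 (by exact_mod_cast hupp.le)
    rw [Real.log_pow] at h1
    push_cast at h1
    have : (1:ℝ) ≤ i := by exact_mod_cast (by omega : 1 ≤ i)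
    nlinarith
  have hLT : (36 : ℝ) * 2 ^ U + 2 ^ B + 16 ≤ Real.log x := by
    have h1 : (2:ℝ) * T ≤ i := by exact_mod_cast (by omega : 2 * T ≤ i)
    linarith
  have hU0 : (1:ℝ) ≤ 2 ^ U := one_le_pow₀ (by norm_num)
  have hB0 : (1:ℝ) ≤ 2 ^ B := one_le_pow₀ (by norm_num)
  have hl1 : 1 ≤ Real.log x := by linarith
  have hl : 0 < Real.log x := by linarith
  -- the point of the grid
  obtain ⟨h, hh⟩ : ∃ h, h = stp V i := ⟨_, rfl⟩
  have hiV : 0 < i ^ V := Nat.pow_pos (by omega)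
  have hh1 : h * i ^ V ≤ 2 ^ i := by rw [hh]; exact Nat.div_mul_le_self _ _
  have hhpos : 1 ≤ h := by
    rw [hh, stp, Nat.one_le_div_iff hiV]
    omega
  have hh2 : 2 ^ i < (h + 1) * i ^ V := by
    rw [hh, stp]
    have := Nat.lt_div_mul_add (a := 2 ^ i) hiV
    rw [add_mul, one_mul]
    exact this
  have hh3 : 2 ^ i ≤ 2 * i ^ V * h := by nlinarith
  obtain ⟨m, hm⟩ : ∃ m, m = (x - 2 ^ i) / h + 1 := ⟨_, rfl⟩
  obtain ⟨N, hN⟩ : ∃ N, N = grid V i m := ⟨_, rfl⟩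
  have hdiv := Nat.div_add_mod (x - 2 ^ i) h
  have hmod := Nat.mod_lt (x - 2 ^ i) hhpos
  have hNe : N = 2 ^ i + m * h := by rw [hN, grid, hh]
  have hmh : m * h = h * ((x - 2 ^ i) / h) + h := by rw [hm]; ring
  have hxN : x ≤ N := by omega
  have hNx : N ≤ x + h := by omega
  have hmr : m ∈ range (3 * i ^ V + 1) := by
    rw [mem_range]
    have h1 : (x - 2 ^ i) / h < 2 * i ^ V := by
      rw [Nat.div_lt_iff_lt_mul hhpos]
      have : x - 2 ^ i < 2 ^ i := by rw [pow_succ] at hupp; omega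
      omega
    omega
  have hhx : h ≤ x := by
    calc h = h * 1 := (mul_one h).symm
      _ ≤ h * i ^ V := Nat.mul_le_mul_left h hiV
      _ ≤ 2 ^ i := hh1
      _ ≤ x := hlow
  have hN2x : (N : ℝ) ≤ 2 * x := by exact_mod_cast (by omega : N ≤ 2 * x)
  have hxN' : (x : ℝ) ≤ N := by exact_mod_cast hxN
  have hN0 : (0:ℝ) < N := by linarith
  have hlN1 : Real.log x ≤ Real.log N := Real.log_le_log hx0 hxN'
  have hlN2 : Real.log N ≤ 2 * Real.log x := by
    calc Real.log N ≤ Real.log (2 * x) := Real.log_le_log hN0 hN2x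
      _ = Real.log 2 + Real.log x := Real.log_mul (by norm_num) hx0.ne'
      _ ≤ _ := by linarith
  -- `n` is admissible at `N`
  have hn0 : (0:ℝ) ≤ n := Nat.cast_nonneg n
  have hnn : (n : ℝ) ≤ (n : ℝ) ^ (1 + β) := by
    rcases Nat.eq_zero_or_pos n with h | h
    · rw [h, Nat.cast_zero]; positivity
    · have h1 : (1:ℝ) ≤ n := by exact_mod_cast h
      calc (n:ℝ) = (n:ℝ) ^ (1:ℝ) := (Real.rpow_one _).symm
        _ ≤ _ := Real.rpow_le_rpow_of_exponent_le h1 (by linarith)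
  have hnB : (n : ℝ) * Real.log x ^ (B + 1) ≤ x :=
    (mul_le_mul_of_nonneg_right hnn (by positivity)).trans hn
  have hpowB : 1 ≤ Real.log x ^ (B + 1) := one_le_pow₀ hl1
  have hnx : (n : ℝ) ≤ x := by nlinarith
  have hnN : n ≤ nn β B N := by
    apply le_nn
    · have : (n : ℝ) ≤ N := hnx.trans hxN'
      exact_mod_cast this
    · calc (n : ℝ) ^ (1 + β) * Real.log N ^ B ≤ (n : ℝ) ^ (1 + β) * (2 * Real.log x) ^ B := by
            apply mul_le_mul_of_nonneg_left _ (by positivity)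
            exact pow_le_pow_left₀ (by linarith) hlN2 B
        _ = (n : ℝ) ^ (1 + β) * (Real.log x ^ B * 2 ^ B) := by rw [mul_pow]; ring
        _ ≤ (n : ℝ) ^ (1 + β) * (Real.log x ^ B * Real.log x) := by
            apply mul_le_mul_of_nonneg_left _ (by positivity)
            apply mul_le_mul_of_nonneg_left _ (by positivity)
            linarith
        _ = (n : ℝ) ^ (1 + β) * Real.log x ^ (B + 1) := by rw [pow_succ]
        _ ≤ x := hn
        _ ≤ N := hxN'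
  -- the sum at `N`
  have hSN : SN c N n ω ≤ N / Real.log N ^ (U + 1) := by
    have h1 : ω ∉ bad1 c β B U N := by
      intro hcon
      apply hω'
      unfold badI
      rw [Set.mem_iUnion₂]
      exact ⟨m, hmr, by rw [← hN]; exact hcon⟩
    have h2 : SN c N (nn β B N) ω < N / Real.log N ^ (U + 1) := not_le.1 h1
    refine le_trans ?_ h2.le
    unfold SN
    apply sum_le_sum_of_subset_of_nonneg
    · exact range_subset_range.2 hnN
    · intro _ _ _
      exact abs_nonneg _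
  have hstep := sum_step x N n hxN fun k => c k ω
  have hlogn : (1 + Real.log n) ^ 2 ≤ 9 * (i : ℝ) ^ 2 := by
    have h0 : 0 ≤ Real.log n := Real.log_natCast_nonneg n
    have h1 : Real.log n ≤ 2 * i := by
      rcases Nat.eq_zero_or_pos n with h | h
      · rw [h, Nat.cast_zero, Real.log_zero]; positivity
      · exact (Real.log_le_log (by exact_mod_cast h) hnx).trans hL2
    have h2 : (1:ℝ) ≤ i := by exact_mod_cast (by omega : 1 ≤ i)
    calc (1 + Real.log n) ^ 2 ≤ (3 * (i:ℝ)) ^ 2 := pow_le_pow_left₀ (by linarith) (by linarith) 2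
      _ = _ := by ring
  set L := Real.log (x : ℝ) with hLdef
  obtain ⟨Y, hY⟩ : ∃ Y : ℝ, Y = x / L ^ (U + 1) := ⟨_, rfl⟩
  have hY0 : 0 ≤ Y := by rw [hY]; positivity
  have hYL : Y * L = x / L ^ U := by
    rw [hY, pow_succ]
    field_simp
  have a1 : SN c N n ω ≤ 2 * Y := by
    refine hSN.trans ?_
    calc (N : ℝ) / Real.log N ^ (U + 1) ≤ (2 * x) / L ^ (U + 1) := by
          apply div_le_div₀ (by positivity) hN2x (by positivity)
          exact pow_le_pow_left₀ (by linarith) hlN1 _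
      _ = _ := by rw [hY]; ring
  have a2 : (n : ℝ) ≤ Y := by
    rw [hY, le_div_iff₀ (by positivity)]
    refine le_trans ?_ hnB
    apply mul_le_mul_of_nonneg_left _ hn0
    exact pow_le_pow_right₀ hl1 (by omega)
  have a3 : ((N : ℝ) - x) * (1 + Real.log n) ^ 2 ≤ 18 * 2 ^ U * Y := by
    have h1 : (N : ℝ) - x ≤ h := by
      have : (N : ℝ) ≤ x + h := by exact_mod_cast hNx
      linarith
    have h2 : (h : ℝ) * (i : ℝ) ^ V ≤ x := by
      have : h * i ^ V ≤ x := hh1.trans hlow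
      exact_mod_cast this
    have h3 : (h : ℝ) * (9 * (i : ℝ) ^ 2) * (i : ℝ) ^ (U + 1) ≤ 9 * x := by
      have e : (i : ℝ) ^ V = (i : ℝ) ^ 2 * (i : ℝ) ^ (U + 1) := by
        rw [hV, ← pow_add]; congr 1; ring
      rw [e] at h2
      linarith
    have h4 : L ^ (U + 1) ≤ 2 ^ (U + 1) * (i : ℝ) ^ (U + 1) := by
      rw [← mul_pow]
      exact pow_le_pow_left₀ hl.le hL2 _
    have h5 : (h : ℝ) * (9 * (i : ℝ) ^ 2) ≤ 18 * 2 ^ U * Y := by
      rw [hY, ← mul_div_assoc, le_div_iff₀ (by positivity)]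
      calc (h : ℝ) * (9 * (i : ℝ) ^ 2) * L ^ (U + 1) ≤
          (h : ℝ) * (9 * (i : ℝ) ^ 2) * (2 ^ (U + 1) * (i : ℝ) ^ (U + 1)) := by gcongr
        _ = 2 ^ (U + 1) * ((h : ℝ) * (9 * (i : ℝ) ^ 2) * (i : ℝ) ^ (U + 1)) := by ring
        _ ≤ 2 ^ (U + 1) * (9 * x) := by gcongr
        _ = _ := by rw [pow_succ]; ring
    calc ((N : ℝ) - x) * (1 + Real.log n) ^ 2 ≤ h * (9 * (i : ℝ) ^ 2) := by
          apply mul_le_mul h1 hlogn (by positivity) (by positivity)
      _ ≤ _ := h5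
  have hfin : SN c x n ω ≤ SN c N n ω + (n + ((N : ℝ) - x) * (1 + Real.log n) ^ 2) := hstep
  calc SN c x n ω ≤ 2 * Y + (Y + 18 * 2 ^ U * Y) := by linarith
    _ = Y * (3 + 18 * 2 ^ U) := by ring
    _ ≤ Y * L := by
        apply mul_le_mul_of_nonneg_left _ hY0
        linarith
    _ = _ := hYL

end

theorem t_ASM : J_ASM := by
  intro Ω _ μ _ c hc hE U
  have h1 : ∀ U : ℕ, ∃ (B : ℕ) (C : ℝ), 0 < C ∧ ∀ N : ℕ, 3 ≤ N → ∀ n : ℕ,
      (n : ℝ) ^ (1 + (0 : ℝ)) * Real.log N ^ B ≤ N → ∀ t : ℝ, 0 < t →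
      μ.real {ω | t ≤ SN c N n ω} ≤ C * (N / Real.log N ^ U) / t := by
    intro U
    obtain ⟨B, C, hC, h⟩ := hE U
    refine ⟨B, C, hC, fun N hN n hn t ht => ?_⟩
    rw [add_zero, Real.rpow_one] at hn
    have h2 := h N hN n hn
    rw [← integral_SN μ hc] at h2
    rw [le_div_iff₀ ht]
    refine le_trans ?_ h2
    have h3 := mul_meas_ge_le_integral_of_nonneg (μ := μ) (f := SN c N n) (Eventually.of_forall (fun ω => SN_nonneg N n ω))
      (integrable_SN μ hc N n) t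
    rw [mul_comm]
    exact h3
  obtain ⟨B, hB⟩ := as' μ 0 le_rfl h1 U
  refine ⟨B, ?_⟩
  filter_upwards [hB] with ω hω
  obtain ⟨x₀, hx₀⟩ := hω
  refine ⟨x₀, fun x hx n hn => hx₀ x hx n ?_⟩
  rw [add_zero, Real.rpow_one]
  exact hn

end Pool.Agent.Q120.EI
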