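import Pool.Agent.Q120.EI.Stm

/-!
# Project EI, assembly
-/

set_option autoImplicit false

namespace Pool.Agent.Q120.EI

open Finset MeasureTheory Filter Pool.Agent.Q93.EHC
open scoped Topology

/-- The jobs. -/
structure Jobs : Prop where
  mas : J_MAS
  dya : J_DYA
  emix : J_EMIX
  asm : J_ASM
  pic : J_PIC
  prod : J_PROD
  conv : J_CONV

/-- The entropy deficits of the moduli up to `R` are `O (R / log ^ V R)` for every `V`. -/
def Tiny {Ω : Type} [MeasurableSpace Ω] (μ : Measure Ω) (c : ∀ k : ℕ, Ω → (ZMod (k + 1))ˣ) : Prop :=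
  ∀ V : ℕ, ∃ K : ℝ, ∀ R : ℕ, ∑ k ∈ range R, dfc k (pr μ c k) ≤ K * (R / Real.log (R + 2) ^ V)

/-- The entropy deficits of the moduli up to `R` have sum at most `R / log ^ V R`. -/
def Atmost {Ω : Type} [MeasurableSpace Ω] (μ : Measure Ω) (c : ∀ k : ℕ, Ω → (ZMod (k + 1))ˣ) (V : ℕ) : Prop :=
  ∀ R : ℕ, ∑ k ∈ range R, dfc k (pr μ c k) ≤ R / Real.log (R + 2) ^ V

theorem along_of_large {c : ∀ k : ℕ, (ZMod (k + 1))ˣ}
    (h : ∀ U : ℕ, ∃ B x₀ : ℕ, ∀ x : ℕ, x₀ ≤ x → ∀ n : ℕ, (n : ℝ) * Real.log x ^ B ≤ x →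
      ∑ k ∈ range n, |err x (k + 1) (c k : ZMod (k + 1))| ≤ x / Real.log x ^ U) {θ : ℝ} (hθ : θ < 1) : Along θ c := by
  intro A hA
  obtain ⟨C, hC⟩ := full_of_large c h θ hθ A hA
  exact ⟨C, fun x hx => hC x hx⟩

/-- **Below the frontier.** -/
theorem below (J : Jobs) {Ω : Type} [MeasurableSpace Ω] {μ : Measure Ω} [IsProbabilityMeasure μ]
    {c : ∀ k : ℕ, Ω → (ZMod (k + 1))ˣ} (hc : ∀ k (a : (ZMod (k + 1))ˣ), MeasurableSet {ω | c k ω = a}) (hT : Tiny μ c) :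
    (∀ U : ℕ, ∃ B : ℕ, ∀ᵐ ω ∂μ, ∃ x₀ : ℕ, ∀ x : ℕ, x₀ ≤ x → ∀ n : ℕ, (n : ℝ) * Real.log x ^ B ≤ x →
      ∑ k ∈ range n, |err x (k + 1) (c k ω : ZMod (k + 1))| ≤ x / Real.log x ^ U) ∧
    ∀ᵐ ω ∂μ, ∀ θ : ℝ, θ < 1 → Along θ (fun k => c k ω) := by
  have h1 : ∀ U : ℕ, ∃ B : ℕ, ∀ᵐ ω ∂μ, ∃ x₀ : ℕ, ∀ x : ℕ, x₀ ≤ x → ∀ n : ℕ, (n : ℝ) * Real.log x ^ B ≤ x →
      SN c x n ω ≤ x / Real.log x ^ U := by
    refine J.asm Ω μ c hc (fun U => ?_)
    choose K hK using hT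
    obtain ⟨B, C, hC0, hC⟩ := J.emix J.mas J.dya (fun V => max (K V) 0) U (fun V => le_max_right _ _)
    refine ⟨B, C, hC0, fun N hN n hn => ?_⟩
    refine hC N hN n hn (fun k a => pr μ c k a) (fun k a => pr_nonneg μ k a) (fun k => sum_pr μ hc k) (fun V R => ?_)
    refine (hK V R).trans (mul_le_mul_of_nonneg_right (le_max_left _ _) ?_)
    have : 0 ≤ Real.log ((R : ℝ) + 2) := Real.log_nonneg (by
      have : (0 : ℝ) ≤ R := Nat.cast_nonneg R
      linarith)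
    positivity
  refine ⟨h1, ?_⟩
  choose B hB using h1
  filter_upwards [ae_all_iff.2 hB] with ω hω
  intro θ hθ
  refine along_of_large (fun U => ?_) hθ
  obtain ⟨x₀, hx₀⟩ := hω U
  exact ⟨B U, x₀, hx₀⟩

theorem err_le_E (x k : ℕ) (a : (ZMod (k + 1))ˣ) : |err x (k + 1) (a : ZMod (k + 1))| ≤ E x (k + 1) :=
  le_ciSup (f := fun a : (ZMod (k + 1))ˣ => |err x (k + 1) (a : ZMod (k + 1))|) (Set.finite_range _).bddAbove a

theorem along_of_eht {θ : ℝ} (h : EHt θ) (c : ∀ k : ℕ, (ZMod (k + 1))ˣ) : Along θ c := by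
  intro A hA
  obtain ⟨C, hC⟩ := h A hA
  exact ⟨C, fun x hx => (sum_le_sum fun k _ => err_le_E x k (c k)).trans (hC x hx)⟩

theorem dfc_unif {k : ℕ} {P : (ZMod (k + 1))ˣ → ℝ} (h : ∀ a, P a = 1 / (Nat.totient (k + 1) : ℝ)) : dfc k P = 0 := by
  unfold dfc
  have hφ : (0 : ℝ) < (Nat.totient (k + 1) : ℝ) := by exact_mod_cast Nat.totient_pos.2 (by omega)
  refine sum_eq_zero (fun a _ => ?_)
  rw [h a, mul_one_div_cancel hφ.ne', Real.log_one, mul_zero]

theorem dfc_point {k : ℕ} {P : (ZMod (k + 1))ˣ → ℝ} {b : (ZMod (k + 1))ˣ} (hb : P b = 1) (h : ∀ a, a ≠ b → P a = 0) :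
    dfc k P = Real.log (Nat.totient (k + 1)) := by
  unfold dfc
  rw [sum_eq_single b]
  · rw [hb, mul_one, one_mul]
  · intro a _ ha
    rw [h a ha, zero_mul]
  · intro hcon
    exact absurd (mem_univ b) hcon

theorem atmost_of_sys {Ω : Type} [MeasurableSpace Ω] {μ : Measure Ω} [IsProbabilityMeasure μ]
    {c : ∀ k : ℕ, Ω → (ZMod (k + 1))ˣ} {S : Set ℕ} {b : ∀ k : ℕ, (ZMod (k + 1))ˣ} (h : IsSys μ c S b) {V : ℕ}
    (hS : ∀ (R : ℕ) (F : Finset ℕ), (∀ k ∈ F, k ∈ S ∧ k < R) → (F.card : ℝ) ≤ R / Real.log (R + 2) ^ (V + 1)) :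
    Atmost μ c V := by
  classical
  intro R
  rcases Nat.eq_zero_or_pos R with hR | hR
  · subst hR
    simp
  have hR1 : (1 : ℝ) ≤ R := by exact_mod_cast hR
  have hlog : 0 < Real.log ((R : ℝ) + 2) := Real.log_pos (by linarith)
  have h1 : ∀ k ∈ range R, dfc k (pr μ c k) ≤ if k ∈ S then Real.log ((R : ℝ) + 2) else 0 := by
    intro k hk
    rw [mem_range] at hk
    by_cases hkS : k ∈ S
    · rw [if_pos hkS]
      have hb : pr μ c k (b k) = 1 := by
        unfold pr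
        have e : {ω | c k ω = b k} = Set.univ := by
          ext ω
          simp [h.fixed k hkS ω]
        rw [e]
        exact probReal_univ
      have h0 : ∀ a, a ≠ b k → pr μ c k a = 0 := by
        intro a ha
        unfold pr
        have e : {ω | c k ω = a} = ∅ := by
          ext ω
          simp only [Set.mem_setOf_eq, Set.mem_empty_iff_false, iff_false]
          rw [h.fixed k hkS ω]
          exact fun hcon => ha hcon.symm
        rw [e]
        exact measureReal_empty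
      rw [dfc_point hb h0]
      have hφ : 0 < Nat.totient (k + 1) := Nat.totient_pos.2 (by omega)
      apply Real.log_le_log (by exact_mod_cast hφ)
      have h2 : Nat.totient (k + 1) ≤ R := (Nat.totient_le _).trans (by omega)
      have : (Nat.totient (k + 1) : ℝ) ≤ R := by exact_mod_cast h2
      linarith
    · rw [if_neg hkS]
      exact (dfc_unif (fun a => h.unif k hkS a)).le
  calc ∑ k ∈ range R, dfc k (pr μ c k) ≤ ∑ k ∈ range R, if k ∈ S then Real.log ((R : ℝ) + 2) else 0 := sum_le_sum h1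
    _ = (((range R).filter (fun k => k ∈ S)).card : ℝ) * Real.log ((R : ℝ) + 2) := by
        rw [← sum_filter, sum_const, nsmul_eq_mul]
    _ ≤ (R / Real.log (R + 2) ^ (V + 1)) * Real.log ((R : ℝ) + 2) := by
        refine mul_le_mul_of_nonneg_right (hS R _ (fun k hk => ?_)) hlog.le
        rw [mem_filter, mem_range] at hk
        exact ⟨hk.2, hk.1⟩
    _ = R / Real.log (R + 2) ^ V := by
        rw [pow_succ]
        field_simp

/-- **At the frontier.** -/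
theorem frontier (J : Jobs) {θ : ℝ} (hθ : θ < 1) (V : ℕ) : EHt θ ↔
    ∀ (Ω : Type) [MeasurableSpace Ω] (μ : Measure Ω) [IsProbabilityMeasure μ] (c : ∀ k : ℕ, Ω → (ZMod (k + 1))ˣ)
      (S : Set ℕ) (b : ∀ k : ℕ, (ZMod (k + 1))ˣ), IsSys μ c S b → Atmost μ c V → ∀ᵐ ω ∂μ, Along θ (fun k => c k ω) := by
  constructor
  · intro h Ω _ μ _ c S b _ _
    exact ae_of_all _ (fun ω => along_of_eht h _)
  · intro h
    by_contra hcon
    obtain ⟨S, b, hS, hbad⟩ := J.conv J.pic θ V hθ hcon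
    obtain ⟨Ω, hΩ, μ, hμ, c, hc⟩ := J.prod S b
    have h1 := h Ω μ c S b hc (atmost_of_sys hc hS)
    have h2 : ∀ᵐ ω ∂μ, False := by
      filter_upwards [h1] with ω hω
      exact hbad _ (fun k hk => hc.fixed k hk ω) hω
    exact (Filter.eventually_false_iff_eq_bot.1 h2 ▸ (inferInstance : (ae μ).NeBot)).ne rfl

end Pool.Agent.Q120.EI
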