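import Pool.Agent.Q120.EI.Stm

/-!
# Project EI: job MAS
-/

set_option autoImplicit false

namespace Pool.Agent.Q120.EI

open Finset

theorem log_ineq {t : ℝ} (ht : 0 ≤ t) : 0 ≤ t * Real.log t - t + 1 := by
  rcases eq_or_lt_of_le ht with h | h
  · rw [← h]
    norm_num
  · have h1 := Real.one_sub_inv_le_log_of_pos h
    have h2 := mul_le_mul_of_nonneg_left h1 ht
    have h3 : t * (1 - t⁻¹) = t - 1 := by
      field_simp
    linarith

theorem t_MAS : J_MAS := by
  intro k P hP hs
  have hφ : (0 : ℝ) < (Nat.totient (k + 1) : ℝ) := by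
    exact_mod_cast Nat.totient_pos.2 (Nat.succ_pos k)
  have key : ∀ a, P a - min (P a) (Real.exp 2 / (Nat.totient (k + 1) : ℝ)) ≤
      P a * Real.log ((Nat.totient (k + 1) : ℝ) * P a) - P a + 1 / (Nat.totient (k + 1) : ℝ) := by
    intro a
    have h0 := hP a
    rcases le_or_gt ((Nat.totient (k + 1) : ℝ) * P a) (Real.exp 2) with h | h
    · have h1 : P a ≤ Real.exp 2 / (Nat.totient (k + 1) : ℝ) := by
        rw [le_div_iff₀ hφ]
        linarith
      rw [min_eq_left h1]
      have h2 := log_ineq (mul_nonneg hφ.le h0)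
      have h3 : P a * Real.log ((Nat.totient (k + 1) : ℝ) * P a) - P a + 1 / (Nat.totient (k + 1) : ℝ) =
          ((Nat.totient (k + 1) : ℝ) * P a * Real.log ((Nat.totient (k + 1) : ℝ) * P a) -
            (Nat.totient (k + 1) : ℝ) * P a + 1) / (Nat.totient (k + 1) : ℝ) := by
        field_simp
      rw [h3, sub_self]
      exact div_nonneg h2 hφ.le
    · have h1 : 2 ≤ Real.log ((Nat.totient (k + 1) : ℝ) * P a) := by
        rw [Real.le_log_iff_exp_le (lt_trans (Real.exp_pos _) h)]
        exact h.le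
      have h2 : 0 ≤ min (P a) (Real.exp 2 / (Nat.totient (k + 1) : ℝ)) := le_min h0 (by positivity)
      have h3 : 0 ≤ 1 / (Nat.totient (k + 1) : ℝ) := by positivity
      nlinarith
  have hsum : ∑ a : (ZMod (k + 1))ˣ, (P a * Real.log ((Nat.totient (k + 1) : ℝ) * P a) - P a + 1 / (Nat.totient (k + 1) : ℝ)) =
      dfc k P := by
    rw [sum_add_distrib, sum_sub_distrib, hs, sum_const, card_univ, ZMod.card_units_eq_totient, nsmul_eq_mul]
    have h4 : (Nat.totient (k + 1) : ℝ) * (1 / (Nat.totient (k + 1) : ℝ)) = 1 := by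
      field_simp
    rw [h4]
    unfold dfc
    linarith
  have h1 : ∑ a, (P a - min (P a) (Real.exp 2 / (Nat.totient (k + 1) : ℝ))) ≤ dfc k P := by
    rw [← hsum]
    exact sum_le_sum (fun a _ => key a)
  refine ⟨h1, le_trans (sum_nonneg (fun a _ => ?_)) h1⟩
  have := min_le_left (P a) (Real.exp 2 / (Nat.totient (k + 1) : ℝ))
  linarith

end Pool.Agent.Q120.EI
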