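import Pool.Agent.Q120.EI.Stm

/-!
# Project EI: job PROD
-/

set_option autoImplicit false

namespace Pool.Agent.Q120.EI

open Finset MeasureTheory

open Classical in
theorem t_PROD : J_PROD := by
  intro S b
  letI ms : ∀ k : ℕ, MeasurableSpace (ZMod (k + 1))ˣ := fun _ => ⊤
  haveI : ∀ k : ℕ, MeasurableSingletonClass (ZMod (k + 1))ˣ := fun _ => ⟨fun _ => trivial⟩
  let m : ∀ k : ℕ, Measure (ZMod (k + 1))ˣ := fun k => (PMF.uniformOfFintype (ZMod (k + 1))ˣ).toMeasure
  haveI hm : ∀ k, IsProbabilityMeasure (m k) := fun k => PMF.toMeasure.isProbabilityMeasure _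
  let c : ∀ k : ℕ, (∀ j : ℕ, (ZMod (j + 1))ˣ) → (ZMod (k + 1))ˣ := fun k ω => if k ∈ S then b k else ω k
  have hset : ∀ (F : Finset ℕ) (a : ∀ k : ℕ, (ZMod (k + 1))ˣ),
      {ω | ∀ k ∈ F, c k ω = a k} = Set.pi (F : Set ℕ) (fun k => {x : (ZMod (k + 1))ˣ | (if k ∈ S then b k else x) = a k}) := by
    intro F a
    ext ω
    simp only [Set.mem_ofPred_eq, Set.mem_pi, mem_coe]
    exact Iff.rfl
  have hreal : ∀ (F : Finset ℕ) (a : ∀ k : ℕ, (ZMod (k + 1))ˣ),
      (Measure.infinitePi m).real {ω | ∀ k ∈ F, c k ω = a k} =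
        ∏ k ∈ F, (m k).real {x : (ZMod (k + 1))ˣ | (if k ∈ S then b k else x) = a k} := by
    intro F a
    rw [hset, measureReal_def, Measure.infinitePi_pi m (fun _ _ => trivial), ENNReal.toReal_prod]
    rfl
  have hone : ∀ k (a : (ZMod (k + 1))ˣ), (Measure.infinitePi m).real {ω | c k ω = a} =
      (m k).real {x : (ZMod (k + 1))ˣ | (if k ∈ S then b k else x) = a} := by
    intro k a
    have h1 := hreal {k} (Function.update b k a)
    simp only [mem_singleton, forall_eq, prod_singleton, Function.update_self] at h1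
    exact h1
  refine ⟨∀ k : ℕ, (ZMod (k + 1))ˣ, inferInstance, Measure.infinitePi m, inferInstance, c, ?_, ?_, ?_, ?_⟩
  · intro k a
    by_cases hk : k ∈ S
    · have h1 : {ω : ∀ j : ℕ, (ZMod (j + 1))ˣ | c k ω = a} = {_ω | b k = a} := by
        ext ω
        simp only [c, if_pos hk, Set.mem_ofPred_eq]
      rw [h1]
      exact MeasurableSet.const _
    · have h1 : {ω : ∀ j : ℕ, (ZMod (j + 1))ˣ | c k ω = a} = (fun ω => ω k) ⁻¹' {a} := by
        ext ω
        simp only [c, if_neg hk, Set.mem_ofPred_eq, Set.mem_preimage, Set.mem_singleton_iff]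
      rw [h1]
      exact measurable_pi_apply k trivial
  · intro k hk ω
    simp only [c, if_pos hk]
  · intro k hk a
    rw [hone]
    simp only [if_neg hk]
    have h1 : {x : (ZMod (k + 1))ˣ | x = a} = {a} := by
      ext x
      simp
    rw [h1, measureReal_def, PMF.toMeasure_apply_singleton _ _ (measurableSet_singleton a), PMF.uniformOfFintype_apply, ZMod.card_units_eq_totient,
      ENNReal.toReal_inv, ENNReal.toReal_natCast, one_div]
  · intro F a
    rw [hreal]
    exact prod_congr rfl (fun k _ => (hone k (a k)).symm)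

end Pool.Agent.Q120.EI
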