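import Pool.Agent.Q93.EHC.Fin

/-!
# Project EI: the entropy frontier of the Elliott–Halberstam conjecture

`c` is a random residue system (`c k` is a random reduced class modulo `k + 1`, any dependence), `def` of `c k` its entropy deficit
`log φ(k + 1) - H(c k)` in nats. (1) If the sum of the deficits of the moduli up to `R` is `O (R / log ^ B R)` for EVERY `B`, then almost
surely the bound of the Elliott–Halberstam conjecture holds along `c` (unconditionally, for the primes). (2) For every `B` and every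
level `θ < 1` the Elliott–Halberstam conjecture at level `θ` is EQUIVALENT to its bound along all `c` whose deficits up to `R` have sum at most
`R / log ^ B R`, even if each `c k` is constant or uniform, independently.

Notation of the library `Q93.EHC`: `err x q a = π(x; q, a) - π(x) / φ(q)`, `pr μ c k a = μ.real {c k = a}`,
`SN c N n ω = ∑ k < n, |err N (k + 1) (c k ω)|`. Each job is a definition `J_… : Prop`; a theorem `t_… : J_…` is to be proved. The proofs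
are complete in the docstrings.
-/

set_option autoImplicit false

namespace Pool.Agent.Q120.EI

open Finset MeasureTheory Filter Pool.Agent.Q93.EHC
open scoped Topology

/-- The entropy deficit (nats) of the distribution `P` on the reduced classes modulo `k + 1`: `log φ(k + 1)` minus its entropy. -/
noncomputable def dfc (k : ℕ) (P : (ZMod (k + 1))ˣ → ℝ) : ℝ :=
  ∑ a : (ZMod (k + 1))ˣ, P a * Real.log ((Nat.totient (k + 1) : ℝ) * P a)

/-- **Job MAS.** The mass of the large probabilities.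
Proof. Let `E` be the set of the `a` with `exp 2 < φ * P a` and `m = ∑_{a ∈ E} P a`. On `E` the terms of `dfc` are at least `2 * P a`, off
`E` at least `P a - 1 / φ` (`log t ≥ 1 - 1 / t` for `t > 0`, and `0` is at least `- 1 / φ`), so `dfc ≥ 2 m + (1 - m) - 1 = m`
(`Fintype.card` of the units is `φ (k + 1)`, `ZMod.card_units_eq_totient`). Finally `P a - min (P a) (exp 2 / φ)` is `0` off `E` and at most `P a` on
`E`. The second claim is `dfc ≥ 0`, from the first. -/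
def J_MAS : Prop := ∀ (k : ℕ) (P : (ZMod (k + 1))ˣ → ℝ), (∀ a, 0 ≤ P a) → ∑ a, P a = 1 →
  ∑ a, (P a - min (P a) (Real.exp 2 / (Nat.totient (k + 1) : ℝ))) ≤ dfc k P ∧ 0 ≤ dfc k P

/-- **Job DYA.** Partial summation.
Proof. Cut `[m, n)` into the at most `2 + 2 * log n` blocks `[2 ^ i, 2 ^ (i + 1))` (`i = Nat.log 2 (k + 1)`): in each block the sum of
`h k / φ (k + 1)` is at most `(1 + 2 * log (2 n)) / 2 ^ i * ∑_{k < 2 ^ (i + 1)} h k ≤ (1 + 2 * log (2 n)) * 2 * M / log (m + 2) ^ V`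
(because `2 ^ (i + 1) ≥ m + 1`; if `2 ^ (i + 1) = m + 1` use monotonicity, or bound the log by a constant factor), where
`q / φ q ≤ 1 + 2 * log q`: `q / φ q = ∏_{p ∣ q} (1 - 1 / p)⁻¹ ≤ ∏_{j = 2}^{ω + 1} j / (j - 1) = ω + 1` and `ω ≤ 2 * log q`
(`Pool.Agent.H441R3.BV.omega_log`; perhaps the library has the bound for `q / φ q` already). The constant `100` may be
replaced by any other constant `c` (change the definition and tell helper120). -/
def J_DYA : Prop := ∀ (h : ℕ → ℝ) (M : ℝ) (V m n : ℕ), (∀ k, 0 ≤ h k) → 0 ≤ M → 3 ≤ m → m ≤ n →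
  (∀ R : ℕ, ∑ k ∈ range R, h k ≤ M * (R / Real.log (R + 2) ^ V)) →
    ∑ k ∈ Ico m n, h k / (Nat.totient (k + 1) : ℝ) ≤ 100 * (1 + Real.log n) ^ 2 * M / Real.log m ^ V

/-- **Job EMIX** (uses MAS, DYA; the theorem `Q93.EHC.wt`). The mean value.
Proof. Let `V = U + 3`, `B = 8 * U + 40`. Let `m = ⌊N ^ (1 / 3)⌋ + 3`. For small `N` (finitely many; the left side is at most `n * N` by
`err_triv`, `n ≤ N`) enlarge `C`. (i) Moduli `k < min m n`: `wt U` with the weights `P` (`∑ w ^ 2 ≤ min m n` as `∑ P = 1`): at most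
`C₁ (N / log ^ U N + √(m * m * N) * log ^ (3 (U + 4)) N)`, fine because `m ^ 2 * N ≤ N ^ (11 / 6)`. (ii) `m ≤ k < n`, part
`w = min (P a) (exp 2 / φ)` (zero for `k < m`): `∑ w ^ 2 ≤ exp 2 * ∑_{k < n} 1 / φ (k + 1) ≤ exp 2 * (1 + log n) ^ 2`
(`Pool.Agent.H441R3.BV.sum_inv_tot` with `sum_shift`), so by `wt U` at most
`C₁ (N / log ^ U N + √(8 * (1 + log n) ^ 2 * n * N) * log ^ (3 (U + 4)) N) ≤ C₂ N / log ^ U N` as `n ≤ N / log ^ (8 U + 40) N`. (iii) `m ≤ k < n`, the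
rest `P - w`: `|err N (k + 1) a| ≤ 3 * N / φ (k + 1)` (the number of primes `≤ N` in the class is at most `N / (k + 1) + 1`, see
`card_AP`; `π(N) ≤ N`; `k + 1 ≤ n ≤ N`), MAS and DYA: at most `3 N * 100 * (1 + log n) ^ 2 * K V / log m ^ V ≤ C₃ N / log N ^ (V - 2)`. -/
def J_EMIX : Prop := J_MAS → J_DYA → ∀ (K : ℕ → ℝ) (U : ℕ), (∀ V, 0 ≤ K V) → ∃ (B : ℕ) (C : ℝ), 0 < C ∧ ∀ N : ℕ, 3 ≤ N → ∀ n : ℕ,
  (n : ℝ) * Real.log N ^ B ≤ N → ∀ P : ∀ k : ℕ, (ZMod (k + 1))ˣ → ℝ, (∀ k a, 0 ≤ P k a) → (∀ k, ∑ a, P k a = 1) →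
    (∀ V R : ℕ, ∑ k ∈ range R, dfc k (P k) ≤ K V * (R / Real.log (R + 2) ^ V)) →
      ∑ k ∈ range n, ∑ a : (ZMod (k + 1))ˣ, P k a * |err N (k + 1) (a : ZMod (k + 1))| ≤ C * (N / Real.log N ^ U)

/-- **Job ASM.** From mean values to almost sure bounds at all heights.
Proof. This is `Q93.EHC.as` (module `Pool.Agent.Q93.EHC.AS`) with `β = 0`, where the theorem `prob_bad` is replaced by the hypothesis and
Markov's inequality: copy `nn`, `badI_le`, `as` with obvious changes. -/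
def J_ASM : Prop := ∀ (Ω : Type) [MeasurableSpace Ω] (μ : Measure Ω) [IsProbabilityMeasure μ] (c : ∀ k : ℕ, Ω → (ZMod (k + 1))ˣ),
  (∀ k (a : (ZMod (k + 1))ˣ), MeasurableSet {ω | c k ω = a}) →
    (∀ U : ℕ, ∃ (B : ℕ) (C : ℝ), 0 < C ∧ ∀ N : ℕ, 3 ≤ N → ∀ n : ℕ, (n : ℝ) * Real.log N ^ B ≤ N →
      ∑ k ∈ range n, ∑ a : (ZMod (k + 1))ˣ, pr μ c k a * |err N (k + 1) (a : ZMod (k + 1))| ≤ C * (N / Real.log N ^ U)) →
    ∀ U : ℕ, ∃ B : ℕ, ∀ᵐ ω ∂μ, ∃ x₀ : ℕ, ∀ x : ℕ, x₀ ≤ x → ∀ n : ℕ, (n : ℝ) * Real.log x ^ B ≤ x → SN c x n ω ≤ x / Real.log x ^ U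

/-- The maximum of the error over the classes. -/
noncomputable def E (x q : ℕ) : ℝ := ⨆ a : (ZMod q)ˣ, |err x q a|

/-- The Elliott–Halberstam conjecture at level `θ`. -/
def EHt (θ : ℝ) : Prop := ∀ A : ℝ, 0 < A → ∃ C : ℝ, ∀ x : ℕ, 2 < x →
  ∑ k ∈ range ⌊(x : ℝ) ^ θ⌋₊, E x (k + 1) ≤ C * (x * Real.log x ^ (-A))

/-- The same bound along one residue system. -/
def Along (θ : ℝ) (c : ∀ k : ℕ, (ZMod (k + 1))ˣ) : Prop := ∀ A : ℝ, 0 < A → ∃ C : ℝ, ∀ x : ℕ, 2 < x →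
  ∑ k ∈ range ⌊(x : ℝ) ^ θ⌋₊, |err x (k + 1) (c k : ZMod (k + 1))| ≤ C * (x * Real.log x ^ (-A))

/-- **Job PIC.** One bad height costs little (deterministic).
Proof. By the theorem `wt` with point masses (or `Q93.EHC`, Bombieri–Vinogradov) the moduli `k < m := ⌊x ^ (1 / 4)⌋` contribute
to `∑ E x (k + 1)` at most `C₁ * x * log x ^ (-A)`: let `a k` be a class with `E x (k + 1) = |err x (k + 1) (a k)|` (finite maximum) and
`w` the point masses at `a k`, `∑ w ^ 2 = m`, `√(m * m * x) = m √x ≤ x ^ (3 / 4)`. As the bound `EHt` fails for `A` there are arbitrarily large `x`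
with `∑_{m ≤ k < x ^ θ} E x (k + 1) ≥ x * log x ^ (-A)` (if `θ ≤ 1 / 4` there is no such `x`, contradiction, fine). Let
`T = ⌈log x ^ (V + 3)⌉`; one of the `T` classes modulo `T` of the `k` has at least the share `1 / T` of the sum; let `M` be this set of the
`k ∈ [m, x ^ θ)`. For `R > m` (otherwise the count is `0`): `#{k ∈ M : k < R} ≤ R / T + 1 ≤ R / log (R + 2) ^ (V + 2)` for large `x`
(`m < R ≤ x` after replacing `R` by `min R x`, the right side increases with `R` for large `R`). -/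
def J_PIC : Prop := ∀ (θ A : ℝ) (V : ℕ), θ < 1 → 0 < A →
  (¬ ∃ C : ℝ, ∀ x : ℕ, 2 < x → ∑ k ∈ range ⌊(x : ℝ) ^ θ⌋₊, E x (k + 1) ≤ C * (x * Real.log x ^ (-A))) →
    ∀ x₀ : ℕ, ∃ (x : ℕ) (M : Finset ℕ) (a : ∀ k : ℕ, (ZMod (k + 1))ˣ), x₀ ≤ x ∧ (∀ k ∈ M, x₀ ≤ k ∧ k < ⌊(x : ℝ) ^ θ⌋₊) ∧
      (∀ R : ℕ, ((M.filter (fun k => k < R)).card : ℝ) ≤ R / Real.log (R + 2) ^ (V + 2)) ∧
      (x : ℝ) * Real.log x ^ (-(A + V + 5)) ≤ ∑ k ∈ M, |err x (k + 1) (a k : ZMod (k + 1))|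

/-- A random residue system: `c k` is the fixed class `b k` for `k ∈ S`, and for `k ∉ S` the `c k` are independent and uniform. -/
structure IsSys {Ω : Type} [MeasurableSpace Ω] (μ : Measure Ω) (c : ∀ k : ℕ, Ω → (ZMod (k + 1))ˣ) (S : Set ℕ)
    (b : ∀ k : ℕ, (ZMod (k + 1))ˣ) : Prop where
  meas : ∀ k (a : (ZMod (k + 1))ˣ), MeasurableSet {ω | c k ω = a}
  fixed : ∀ k ∈ S, ∀ ω, c k ω = b k
  unif : ∀ k, k ∉ S → ∀ a : (ZMod (k + 1))ˣ, μ.real {ω | c k ω = a} = 1 / (Nat.totient (k + 1) : ℝ)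
  indep : ∀ (F : Finset ℕ) (a : ∀ k : ℕ, (ZMod (k + 1))ˣ),
    μ.real {ω | ∀ k ∈ F, c k ω = a k} = ∏ k ∈ F, μ.real {ω | c k ω = a k}

/-- **Job PROD.** Existence of the systems.
Proof. `Ω = ∀ k, (ZMod (k + 1))ˣ` with the discrete σ-algebras on the factors, `μ` the infinite product (`Measure.infinitePi` or
`productMeasure`) of the uniform measures (`k ∉ S`) and Dirac measures; `c k ω = b k` for `k ∈ S`, else `ω k`. -/
def J_PROD : Prop := ∀ (S : Set ℕ) (b : ∀ k : ℕ, (ZMod (k + 1))ˣ), ∃ (Ω : Type) (_ : MeasurableSpace Ω) (μ : Measure Ω)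
  (_ : IsProbabilityMeasure μ) (c : ∀ k : ℕ, Ω → (ZMod (k + 1))ˣ), IsSys μ c S b

/-- **Job CONV** (uses PIC). Failure of the conjecture gives one bad sparse set.
Proof. Choose `x₁, M₁, a₁`, `x₂, M₂, a₂`, … by PIC (dependent choice, recursively: `x₀` of step `i + 1` is larger than
`exp (x_i)`, `i` and `x_i`), so that the `M_i` are disjoint and increasing; `S = ⋃ M_i`, `b k = a_i k` for `k ∈ M_i`. Count: for `R` with
`M_{i + 1}` the last set meeting `[0, R)`: at most `x_i + R / log (R + 2) ^ (V + 2) ≤ 2 R / log (R + 2) ^ (V + 2)` and this is at most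
`R / log (R + 2) ^ (V + 1)` for large `R` (start with a large first `x₀`); `x_i ≤ log R`. At `x = x_i` the sum over `k ∈ M_i` alone is at least
`x * log x ^ (-(A + V + 5))`, so for every system `c` with `c k = b k` on `S` the bound with `A + V + 6` in place of `A` fails. -/
def J_CONV : Prop := J_PIC → ∀ (θ : ℝ) (V : ℕ), θ < 1 → ¬ EHt θ → ∃ (S : Set ℕ) (b : ∀ k : ℕ, (ZMod (k + 1))ˣ),
  (∀ (R : ℕ) (F : Finset ℕ), (∀ k ∈ F, k ∈ S ∧ k < R) → (F.card : ℝ) ≤ R / Real.log (R + 2) ^ (V + 1)) ∧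
    ∀ c : ∀ k : ℕ, (ZMod (k + 1))ˣ, (∀ k ∈ S, c k = b k) → ¬ Along θ c

end Pool.Agent.Q120.EI
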